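import Pool.Agent.H20.MT.Stmts

set_option autoImplicit false

namespace MTA
open Finset Filter Topology

private theorem bv_card (q : ℕ) [NeZero q] :
    (Fintype.card (DirichletCharacter ℂ q) : ℝ) = q.totient := by
  rw [← Nat.card_eq_fintype_card, DirichletCharacter.card_eq_totient_of_hasEnoughRootsOfUnity ℂ q]

private theorem bv_nps_mono (q : ℕ) [NeZero q] (F G : DirichletCharacter ℂ q → ℝ)
    (h : ∀ χ, χ ≠ 1 → F χ ≤ G χ) : nps q F ≤ nps q G := by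
  classical
  unfold nps
  apply Finset.sum_le_sum
  intro χ _
  split_ifs with h1
  · exact le_rfl
  · exact h χ h1

private theorem bv_nps_add (q : ℕ) [NeZero q] (F : DirichletCharacter ℂ q → ℝ) (K : ℝ) (hK : 0 ≤ K) :
    nps q (fun χ => F χ + K) ≤ nps q F + q.totient * K := by
  classical
  unfold nps
  rw [← bv_card q, ← nsmul_eq_mul, ← Finset.card_univ, ← Finset.sum_const,
    ← Finset.sum_add_distrib]
  apply Finset.sum_le_sum
  intro χ _
  split_ifs with h1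
  · linarith
  · exact le_rfl

private theorem bv_prs_le (r : ℕ) [NeZero r] (F : DirichletCharacter ℂ r → ℝ) (K : ℝ) (hK : 0 ≤ K)
    (h : ∀ χ, χ.IsPrimitive → F χ ≤ K) : prs r F ≤ r.totient * K := by
  classical
  unfold prs
  have h1 : (∑ χ : DirichletCharacter ℂ r, if χ.IsPrimitive then F χ else 0) ≤
      ∑ χ : DirichletCharacter ℂ r, K := by
    apply Finset.sum_le_sum
    intro χ _
    split_ifs with h1
    · exact h χ h1
    · exact hK
  refine h1.trans ?_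
  rw [Finset.sum_const, Finset.card_univ, nsmul_eq_mul, bv_card]

private theorem bv_prs_nonneg (r : ℕ) [NeZero r] (F : DirichletCharacter ℂ r → ℝ)
    (h : ∀ χ, 0 ≤ F χ) : 0 ≤ prs r F := by
  classical
  unfold prs
  apply Finset.sum_nonneg
  intro χ _
  split_ifs with h1
  · exact h χ
  · exact le_rfl

private theorem bv_ne_one (r : ℕ) (hr : 2 ≤ r) [NeZero r] (χ : DirichletCharacter ℂ r)
    (h : χ.IsPrimitive) : χ ≠ 1 := by
  intro h1
  have h2 := (DirichletCharacter.eq_one_iff_conductor_eq_one (χ := χ)).1 h1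
  unfold DirichletCharacter.IsPrimitive at h
  omega

/-- powers of `log` are small -/
private theorem bv_log_pow (K : ℕ) (s e : ℝ) (hs : 0 < s) (he : 0 < e) :
    ∀ᶠ x : ℝ in atTop, (Real.log x) ^ K ≤ e * x ^ s := by
  have h := isLittleO_log_rpow_rpow_atTop (K : ℝ) hs
  have h2 := h.def he
  filter_upwards [h2, eventually_ge_atTop (1 : ℝ)] with x hx hx1
  rw [Real.norm_of_nonneg (Real.rpow_nonneg (Real.log_nonneg hx1) _),
    Real.norm_of_nonneg (Real.rpow_nonneg (by linarith) _), Real.rpow_natCast] at hx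
  exact hx


/-- the elementary inequality behind `S_BV` -/
private theorem bv_final (A c k : ℕ) (C1 C2 C3 C4 : ℝ) (h1 : 0 ≤ C1) (h2 : 0 ≤ C2) (h3 : 0 ≤ C3)
    (h4 : 0 ≤ C4) :
    ∀ᶠ x : ℝ in atTop,
      C3 * Real.log x * ((Real.log x) ^ (A + k + 3) * (x / (Real.log x) ^ (2 * A + k + 6)) +
        C4 * (2 * Real.log x) ^ k * (c * x / (Real.log x) ^ (A + k + 3) +
          c * x ^ (19 / 20 : ℝ))) + x ^ (1 / 5 : ℝ) * (C1 * x ^ (3 / 5 : ℝ) +
            C2 * (2 * Real.log x) * (1 + Real.log x)) ≤ x / (Real.log x) ^ A := by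
  have hM : 0 ≤ C3 * C4 * 2 ^ k * c := by positivity
  filter_upwards [bv_log_pow (A + k + 1) (1 / 20) (1 / (4 * (C3 * C4 * 2 ^ k * c + 1)))
      (by norm_num) (by positivity),
    bv_log_pow (A + 2) (1 / 5) (1 / (4 * (C1 + 4 * C2 + 1))) (by norm_num) (by positivity),
    Real.tendsto_log_atTop.eventually_ge_atTop (4 * C3 + 4 * (C3 * C4 * 2 ^ k * c) + 1),
    eventually_ge_atTop (1 : ℝ)] with x ha hb hc hx1
  have hl1 : 1 ≤ Real.log x := by linarith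
  have hl0 : 0 < Real.log x := by linarith
  set ℓ := Real.log x with hℓ
  have hx0 : 0 < x := by linarith
  have hA : 0 < ℓ ^ A := by positivity
  -- term 1
  have t1 : C3 * ℓ * (ℓ ^ (A + k + 3) * (x / ℓ ^ (2 * A + k + 6))) ≤ 1 / 4 * (x / ℓ ^ A) := by
    have e1 : C3 * ℓ * (ℓ ^ (A + k + 3) * (x / ℓ ^ (2 * A + k + 6))) = (C3 / ℓ ^ 2) * (x / ℓ ^ A) := by
      have : ℓ ^ (2 * A + k + 6) = ℓ ^ (A + k + 3) * ℓ ^ A * ℓ ^ 2 * ℓ := by ring
      rw [this]; field_simp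
    rw [e1]
    apply mul_le_mul_of_nonneg_right _ (by positivity)
    rw [div_le_iff₀ (by positivity)]
    nlinarith
  have t2 : C3 * ℓ * (C4 * (2 * ℓ) ^ k * (c * x / ℓ ^ (A + k + 3))) ≤ 1 / 4 * (x / ℓ ^ A) := by
    have e1 : C3 * ℓ * (C4 * (2 * ℓ) ^ k * (c * x / ℓ ^ (A + k + 3))) =
        ((C3 * C4 * 2 ^ k * c) / ℓ ^ 2) * (x / ℓ ^ A) := by
      have : ℓ ^ (A + k + 3) = ℓ ^ A * ℓ ^ k * ℓ ^ 2 * ℓ := by ring
      rw [this, mul_pow]; field_simp
    rw [e1]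
    apply mul_le_mul_of_nonneg_right _ (by positivity)
    rw [div_le_iff₀ (by positivity)]
    nlinarith
  have t3 : C3 * ℓ * (C4 * (2 * ℓ) ^ k * (c * x ^ (19 / 20 : ℝ))) ≤ 1 / 4 * (x / ℓ ^ A) := by
    have e1 : C3 * ℓ * (C4 * (2 * ℓ) ^ k * (c * x ^ (19 / 20 : ℝ))) =
        (C3 * C4 * 2 ^ k * c) * (ℓ ^ (A + k + 1) * x ^ (19 / 20 : ℝ)) / ℓ ^ A := by
      have : ℓ ^ (A + k + 1) = ℓ ^ A * ℓ ^ k * ℓ := by ring
      rw [this, mul_pow]; field_simp
    have e2 : 1 / 4 * (x / ℓ ^ A) = (1 / 4 * x) / ℓ ^ A := by ring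
    rw [e1, e2]
    apply div_le_div_of_nonneg_right _ hA.le
    have e3 : x = x ^ (1 / 20 : ℝ) * x ^ (19 / 20 : ℝ) := by
      rw [← Real.rpow_add hx0]; norm_num
    have hp : 0 < x ^ (19 / 20 : ℝ) := Real.rpow_pos_of_pos hx0 _
    have hp' : 0 < x ^ (1 / 20 : ℝ) := Real.rpow_pos_of_pos hx0 _
    calc (C3 * C4 * 2 ^ k * c) * (ℓ ^ (A + k + 1) * x ^ (19 / 20 : ℝ))
        ≤ (C3 * C4 * 2 ^ k * c) * ((1 / (4 * (C3 * C4 * 2 ^ k * c + 1)) * x ^ (1 / 20 : ℝ)) *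
          x ^ (19 / 20 : ℝ)) := by gcongr
      _ = ((C3 * C4 * 2 ^ k * c) / (C3 * C4 * 2 ^ k * c + 1)) *
          (1 / 4 * (x ^ (1 / 20 : ℝ) * x ^ (19 / 20 : ℝ))) := by field_simp
      _ ≤ 1 * (1 / 4 * (x ^ (1 / 20 : ℝ) * x ^ (19 / 20 : ℝ))) := by
          apply mul_le_mul_of_nonneg_right _ (by positivity)
          rw [div_le_one (by positivity)]; linarith
      _ = 1 / 4 * x := by rw [← e3, one_mul]
  have t4 : x ^ (1 / 5 : ℝ) * (C1 * x ^ (3 / 5 : ℝ) + C2 * (2 * ℓ) * (1 + ℓ)) ≤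
      1 / 4 * (x / ℓ ^ A) := by
    have hp : 1 ≤ x ^ (3 / 5 : ℝ) := Real.one_le_rpow hx1 (by norm_num)
    have e0 : C1 * x ^ (3 / 5 : ℝ) + C2 * (2 * ℓ) * (1 + ℓ) ≤
        (C1 + 4 * C2) * (ℓ ^ 2 * x ^ (3 / 5 : ℝ)) := by
      have e01 : C1 * x ^ (3 / 5 : ℝ) ≤ C1 * (ℓ ^ 2 * x ^ (3 / 5 : ℝ)) := by
        apply mul_le_mul_of_nonneg_left _ h1
        have : 1 ≤ ℓ ^ 2 := one_le_pow₀ hl1
        nlinarith
      have e02 : C2 * (2 * ℓ) * (1 + ℓ) ≤ 4 * C2 * (ℓ ^ 2 * x ^ (3 / 5 : ℝ)) := by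
        have : (2 * ℓ) * (1 + ℓ) ≤ 4 * (ℓ ^ 2 * x ^ (3 / 5 : ℝ)) := by
          have h5 : (2 * ℓ) * (1 + ℓ) ≤ 4 * ℓ ^ 2 := by nlinarith
          have h6 : ℓ ^ 2 * 1 ≤ ℓ ^ 2 * x ^ (3 / 5 : ℝ) := by gcongr
          linarith
        nlinarith
      linarith
    have e1 : x ^ (1 / 5 : ℝ) * ((C1 + 4 * C2) * (ℓ ^ 2 * x ^ (3 / 5 : ℝ))) =
        (C1 + 4 * C2) * (ℓ ^ (A + 2) * x ^ (4 / 5 : ℝ)) / ℓ ^ A := by
      have h5 : ℓ ^ (A + 2) = ℓ ^ A * ℓ ^ 2 := by ring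
      have h6 : x ^ (4 / 5 : ℝ) = x ^ (1 / 5 : ℝ) * x ^ (3 / 5 : ℝ) := by
        rw [← Real.rpow_add hx0]; norm_num
      rw [h5, h6]; field_simp
    have e2 : 1 / 4 * (x / ℓ ^ A) = (1 / 4 * x) / ℓ ^ A := by ring
    refine (mul_le_mul_of_nonneg_left e0 (by positivity)).trans ?_
    rw [e1, e2]
    apply div_le_div_of_nonneg_right _ hA.le
    have e3 : x = x ^ (1 / 5 : ℝ) * x ^ (4 / 5 : ℝ) := by
      rw [← Real.rpow_add hx0]; norm_num
    have hp' : 0 < x ^ (4 / 5 : ℝ) := Real.rpow_pos_of_pos hx0 _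
    have hp'' : 0 < x ^ (1 / 5 : ℝ) := Real.rpow_pos_of_pos hx0 _
    calc (C1 + 4 * C2) * (ℓ ^ (A + 2) * x ^ (4 / 5 : ℝ))
        ≤ (C1 + 4 * C2) * ((1 / (4 * (C1 + 4 * C2 + 1)) * x ^ (1 / 5 : ℝ)) *
          x ^ (4 / 5 : ℝ)) := by gcongr
      _ = ((C1 + 4 * C2) / (C1 + 4 * C2 + 1)) *
          (1 / 4 * (x ^ (1 / 5 : ℝ) * x ^ (4 / 5 : ℝ))) := by field_simp
      _ ≤ 1 * (1 / 4 * (x ^ (1 / 5 : ℝ) * x ^ (4 / 5 : ℝ))) := by
          apply mul_le_mul_of_nonneg_right _ (by positivity)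
          rw [div_le_one (by positivity)]; linarith
      _ = 1 / 4 * x := by rw [← e3, one_mul]
  calc _ = C3 * ℓ * (ℓ ^ (A + k + 3) * (x / ℓ ^ (2 * A + k + 6))) +
        C3 * ℓ * (C4 * (2 * ℓ) ^ k * (c * x / ℓ ^ (A + k + 3))) +
        C3 * ℓ * (C4 * (2 * ℓ) ^ k * (c * x ^ (19 / 20 : ℝ))) +
        x ^ (1 / 5 : ℝ) * (C1 * x ^ (3 / 5 : ℝ) + C2 * (2 * ℓ) * (1 + ℓ)) := by ring
    _ ≤ 1 / 4 * (x / ℓ ^ A) + 1 / 4 * (x / ℓ ^ A) + 1 / 4 * (x / ℓ ^ A) + 1 / 4 * (x / ℓ ^ A) := by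
        linarith
    _ = x / ℓ ^ A := by ring

theorem BV (h1 : S_SW) (h2 : S_LARGE) (h3 : S_CHAR) (h4 : S_THPSI) (h5 : S_PRIMV)
    (h6 : S_REARR) : S_BV := by
  intro A c hc
  obtain ⟨C4, k, hC4, hL⟩ := h2
  obtain ⟨xC, hC⟩ := h3 c hc
  obtain ⟨C1, xT, hC1, hT⟩ := h4 c hc
  obtain ⟨C2, hC2, hP⟩ := h5
  obtain ⟨C3, hC3, hR⟩ := h6
  obtain ⟨xS, hS⟩ := h1 (2 * A + k + 6) (A + k + 3) c hc
  obtain ⟨xF, hF⟩ := eventually_atTop.1 (bv_final A c k C1 C2 C3 C4 hC1.le hC2.le hC3.le hC4.le)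
  refine ⟨A + k + 3, max (max (max xC xT) (max xS xF)) (max 32 c), fun x hx hg => ?_⟩
  simp only [max_le_iff] at hx
  obtain ⟨⟨⟨hxC, hxT⟩, hxS, hxF⟩, hx32, hxc⟩ := hx
  have hx0 : 0 < x := by linarith
  have hx1 : 1 ≤ x := by linarith
  have hc1 : (1 : ℝ) ≤ c := by exact_mod_cast hc
  have hX0 : 0 < (c : ℝ) * x := by positivity
  have hXx : x ≤ (c : ℝ) * x := by nlinarith
  have hX2 : 2 ≤ (c : ℝ) * x := by linarith
  have hl1 : 1 ≤ Real.log x := by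
    rw [← Real.log_exp 1]
    exact Real.log_le_log (Real.exp_pos 1) (by linarith [Real.exp_one_lt_d9])
  have hlX : Real.log (c * x) ≤ 2 * Real.log x := by
    rw [Real.log_mul (by positivity) (by positivity)]
    have := Real.log_le_log (by positivity) hxc
    linarith
  have hlX0 : 0 ≤ Real.log (c * x) := Real.log_nonneg (by linarith)
  set Q := ⌊x ^ (1 / 5 : ℝ)⌋₊ with hQ
  have hQx : (Q : ℝ) ≤ x ^ (1 / 5 : ℝ) := Nat.floor_le (by positivity)
  have hx5 : x ^ (1 / 5 : ℝ) ≤ x := by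
    conv_rhs => rw [← Real.rpow_one x]
    exact Real.rpow_le_rpow_of_exponent_le hx1 (by norm_num)
  have hQ2 : 2 ≤ Q := by
    rw [hQ]
    apply Nat.le_floor
    have : (32 : ℝ) ^ (1 / 5 : ℝ) ≤ x ^ (1 / 5 : ℝ) :=
      Real.rpow_le_rpow (by norm_num) hx32 (by norm_num)
    have h32 : (32 : ℝ) ^ (1 / 5 : ℝ) = 2 := by
      rw [show (32 : ℝ) = 2 ^ (5 : ℝ) by norm_num, ← Real.rpow_mul (by norm_num)]
      norm_num
    push_cast
    linarith
  have hlQ : Real.log Q ≤ Real.log x :=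
    Real.log_le_log (by positivity) (hQx.trans hx5)
  have hlQ0 : 0 ≤ Real.log Q := Real.log_nonneg (by exact_mod_cast (by omega : 1 ≤ Q))
  -- step 1
  set E := C1 * x ^ (3 / 5 : ℝ) + C2 * (2 * Real.log x) * (1 + Real.log x) with hE
  have hE0 : 0 ≤ E := by positivity
  have s1 : ∀ q ∈ Icc 1 Q, Emax c x q ≤ 1 / (q.totient : ℝ) *
      nps q (fun χ => ‖psiR (c * x) χ.primitiveCharacter‖) + E := by
    intro q hq
    rw [mem_Icc] at hq
    haveI : NeZero q := ⟨by omega⟩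
    have hqx : (q : ℝ) ≤ x ^ (1 / 5 : ℝ) := le_trans (by exact_mod_cast hq.2) hQx
    have hq1 : (1 : ℝ) ≤ q := by exact_mod_cast hq.1
    have ht : 0 < (q.totient : ℝ) := by exact_mod_cast Nat.totient_pos.2 (by omega)
    have hlq : Real.log q ≤ Real.log x := Real.log_le_log (by linarith) (hqx.trans hx5)
    have hlq0 : 0 ≤ Real.log q := Real.log_nonneg hq1
    refine (hC x q hxC hq.1 hqx).trans ?_
    have e1 : nps q (fun χ => ‖thetaR c x χ‖) ≤
        nps q (fun χ => ‖psiR (c * x) χ.primitiveCharacter‖ + E) := by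
      apply bv_nps_mono
      intro χ _
      have f1 := hT x q χ hxT
      have f2 := hP (c * x) q χ hX2
      have f3 : ‖thetaR c x χ‖ ≤ ‖thetaR c x χ - psiR (c * x) χ‖ +
          ‖psiR (c * x) χ - psiR (c * x) χ.primitiveCharacter‖ +
          ‖psiR (c * x) χ.primitiveCharacter‖ := by
        calc ‖thetaR c x χ‖ = ‖(thetaR c x χ - psiR (c * x) χ) +
            (psiR (c * x) χ - psiR (c * x) χ.primitiveCharacter) +
            psiR (c * x) χ.primitiveCharacter‖ := by congr 1; ring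
          _ ≤ _ := norm_add₃_le
      have f4 : C2 * Real.log (c * x) * (1 + Real.log q) ≤
          C2 * (2 * Real.log x) * (1 + Real.log x) := by gcongr
      rw [hE]
      linarith
    have e2 := bv_nps_add q (fun χ => ‖psiR (c * x) χ.primitiveCharacter‖) E hE0
    calc 1 / (q.totient : ℝ) * nps q (fun χ => ‖thetaR c x χ‖)
        ≤ 1 / (q.totient : ℝ) * (nps q (fun χ => ‖psiR (c * x) χ.primitiveCharacter‖) +
          q.totient * E) := by
          apply mul_le_mul_of_nonneg_left (e1.trans e2) (by positivity)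
      _ = _ := by field_simp
  -- step 2
  have s2 := hR Q (fun r χ => ‖psiR (c * x) χ‖) hQ2 (fun r χ => norm_nonneg _)
  -- step 3
  set R1 := (Real.log x) ^ (A + k + 3) with hR1
  have hR11 : 1 ≤ R1 := one_le_pow₀ hl1
  have s3 : ∑ r ∈ (Icc 2 Q).filter (fun r : ℕ => (r : ℝ) ≤ R1), 1 / (r.totient : ℝ) *
      prs r (fun χ => ‖psiR (c * x) χ‖) ≤ R1 * (x / (Real.log x) ^ (2 * A + k + 6)) := by
    have hb : ∀ r ∈ (Icc 2 Q).filter (fun r : ℕ => (r : ℝ) ≤ R1), 1 / (r.totient : ℝ) *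
        prs r (fun χ => ‖psiR (c * x) χ‖) ≤ x / (Real.log x) ^ (2 * A + k + 6) := by
      intro r hr
      rw [mem_filter, mem_Icc] at hr
      haveI : NeZero r := ⟨by omega⟩
      have ht : 0 < (r.totient : ℝ) := by exact_mod_cast Nat.totient_pos.2 (by omega)
      have e1 := bv_prs_le r (fun χ => ‖psiR (c * x) χ‖) (x / (Real.log x) ^ (2 * A + k + 6))
        (by positivity) (fun χ hχ => hS x hxS hg r hr.2 χ hχ (bv_ne_one r hr.1.1 χ hχ))
      calc _ ≤ 1 / (r.totient : ℝ) * (r.totient * (x / (Real.log x) ^ (2 * A + k + 6))) :=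
            mul_le_mul_of_nonneg_left e1 (by positivity)
        _ = _ := by field_simp
    refine (Finset.sum_le_sum hb).trans ?_
    rw [Finset.sum_const, nsmul_eq_mul]
    apply mul_le_mul_of_nonneg_right _ (by positivity)
    have hcard : ((Icc 2 Q).filter (fun r : ℕ => (r : ℝ) ≤ R1)).card ≤ ⌊R1⌋₊ := by
      calc _ ≤ (Icc 1 ⌊R1⌋₊).card := by
            apply Finset.card_le_card
            intro r hr
            rw [mem_filter, mem_Icc] at hr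
            rw [mem_Icc]
            exact ⟨by omega, Nat.le_floor hr.2⟩
        _ = ⌊R1⌋₊ := by simp
    calc (((Icc 2 Q).filter (fun r : ℕ => (r : ℝ) ≤ R1)).card : ℝ) ≤ (⌊R1⌋₊ : ℝ) := by
          exact_mod_cast hcard
      _ ≤ R1 := Nat.floor_le (by positivity)
  have s4 : ∑ r ∈ (Icc 2 Q).filter (fun r : ℕ => ¬ (r : ℝ) ≤ R1), 1 / (r.totient : ℝ) *
      prs r (fun χ => ‖psiR (c * x) χ‖) ≤ C4 * (2 * Real.log x) ^ k * (c * x / R1 +
          c * x ^ (19 / 20 : ℝ)) := by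
    refine (Finset.sum_le_sum_of_subset_of_nonneg ?_ ?_).trans
      ((hL (c * x) R1 hX2 hR11).trans ?_)
    · intro r hr
      rw [mem_filter, mem_Icc] at hr ⊢
      push_neg at hr
      refine ⟨⟨by omega, hr.1.2.trans ?_⟩, hr.2⟩
      rw [hQ]
      apply Nat.floor_le_floor
      exact Real.rpow_le_rpow hx0.le hXx (by norm_num)
    · intro r hr _
      rw [mem_filter, mem_Icc] at hr
      haveI : NeZero r := ⟨by omega⟩
      exact mul_nonneg (by positivity) (bv_prs_nonneg r _ (fun χ => norm_nonneg _))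
    · have e1 : ((c : ℝ) * x) ^ (19 / 20 : ℝ) ≤ c * x ^ (19 / 20 : ℝ) := by
        rw [Real.mul_rpow (by positivity) hx0.le]
        apply mul_le_mul_of_nonneg_right _ (by positivity)
        conv_rhs => rw [← Real.rpow_one (c : ℝ)]
        exact Real.rpow_le_rpow_of_exponent_le hc1 (by norm_num)
      gcongr
  have s5 : ∑ r ∈ Icc 2 Q, 1 / (r.totient : ℝ) * prs r (fun χ => ‖psiR (c * x) χ‖) ≤
      R1 * (x / (Real.log x) ^ (2 * A + k + 6)) + C4 * (2 * Real.log x) ^ k * (c * x / R1 +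
          c * x ^ (19 / 20 : ℝ)) := by
    rw [← Finset.sum_filter_add_sum_filter_not (Icc 2 Q) (fun r : ℕ => (r : ℝ) ≤ R1)]
    exact add_le_add s3 s4
  have s50 : 0 ≤ R1 * (x / (Real.log x) ^ (2 * A + k + 6)) + C4 * (2 * Real.log x) ^ k *
      (c * x / R1 + c * x ^ (19 / 20 : ℝ)) := by positivity
  refine le_trans ?_ (hF x hxF)
  calc ∑ q ∈ Icc 1 Q, Emax c x q
      ≤ ∑ q ∈ Icc 1 Q, (1 / (q.totient : ℝ) *
        nps q (fun χ => ‖psiR (c * x) χ.primitiveCharacter‖) + E) := Finset.sum_le_sum s1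
    _ = (∑ q ∈ Icc 1 Q, 1 / (q.totient : ℝ) *
        nps q (fun χ => ‖psiR (c * x) χ.primitiveCharacter‖)) + Q * E := by
        rw [Finset.sum_add_distrib, Finset.sum_const, nsmul_eq_mul]
        simp
    _ ≤ C3 * Real.log Q * (∑ r ∈ Icc 2 Q, 1 / (r.totient : ℝ) *
        prs r (fun χ => ‖psiR (c * x) χ‖)) + Q * E := by linarith [s2]
    _ ≤ C3 * Real.log Q * (R1 * (x / (Real.log x) ^ (2 * A + k + 6)) +
        C4 * (2 * Real.log x) ^ k * (c * x / R1 + c * x ^ (19 / 20 : ℝ))) + Q * E := by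
        have := mul_le_mul_of_nonneg_left s5 (show 0 ≤ C3 * Real.log Q by positivity)
        linarith
    _ ≤ C3 * Real.log x * (R1 * (x / (Real.log x) ^ (2 * A + k + 6)) +
        C4 * (2 * Real.log x) ^ k * (c * x / R1 + c * x ^ (19 / 20 : ℝ))) +
        x ^ (1 / 5 : ℝ) * E := by
        gcongr

end MTA
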