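import Pool.Agent.H20.MT.Stmts
import Pool.Agent.H20.MT.Rho

set_option autoImplicit false

namespace MTA
open Finset

section trb
variable {P : Finset ℕ} {n : ℕ}

/-- merging of two configurations and the label `0` at `p0` -/
private def trbF (p0 : ↥P) (D E : Cfg P n) : Cfg P n := fun p =>
  if p = p0 then some 0 else (D p).or (E p)

/-- compatibility -/
private def trbC (p0 : ↥P) (D E : Cfg P n) : Prop :=
  (∀ p a b, D p = some a → E p = some b → a = b) ∧ (∀ a, D p0 = some a → a = 0) ∧
    (∀ a, E p0 = some a → a = 0)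

private theorem trb_dv (c : Fin n → ℕ) (p0 : ↥P) (D E : Cfg P n) (h : trbC p0 D E) (t : ℕ) :
    Dv c (trbF p0 D E) t ↔ ((p0 : ℕ) ∣ t ∧ Dv c D t ∧ Dv c E t) := by
  obtain ⟨h1, h2, h3⟩ := h
  constructor
  · intro hF
    have h0 : (p0 : ℕ) ∣ t := hF p0 0 (by simp [trbF])
    refine ⟨h0, ?_, ?_⟩
    · intro p a ha
      by_cases hp : p = p0
      · subst hp
        rw [h2 a ha]; exact h0
      · exact hF p a (by simp [trbF, hp, ha])
    · intro p a ha
      by_cases hp : p = p0
      · subst hp
        rw [h3 a ha]; exact h0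
      · apply hF p a
        rcases hD : D p with _ | d
        · simp [trbF, hp, ha, hD]
        · have := h1 p d a hD ha
          simp [trbF, hp, ha, hD, this]
  · rintro ⟨h0, hD, hE⟩ p a ha
    by_cases hp : p = p0
    · subst hp
      simp [trbF] at ha
      rw [← ha]; exact h0
    · simp only [trbF, hp, if_false] at ha
      rcases hDp : D p with _ | d
      · rw [hDp] at ha
        exact hE p a (by simpa using ha)
      · rw [hDp] at ha
        exact hD p a (by rw [hDp]; simpa using ha)

private theorem trb_isSome (p0 : ↥P) (D E : Cfg P n) (p : ↥P) :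
    (trbF p0 D E p).isSome ↔ (p = p0 ∨ (D p).isSome ∨ (E p).isSome) := by
  unfold trbF
  by_cases hp : p = p0
  · simp [hp]
  · simp only [hp, if_false, false_or]
    rcases D p with _ | d
    · simp
    · simp

private theorem trb_cop (hP : ∀ p ∈ P, p.Prime) (F : Cfg P n) :
    Set.Pairwise (↑(univ : Finset ↥P)) (Function.onFun IsRelPrime
      (fun p : ↥P => if (F p).isSome then (p : ℕ) else 1)) := by
  intro p _ q _ hpq
  simp only [Function.onFun]
  rw [← Nat.coprime_iff_isRelPrime]
  split_ifs
  · exact (Nat.coprime_primes (hP p p.2) (hP q q.2)).2 (fun h => hpq (Subtype.ext h))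
  · simp
  · simp
  · simp

private theorem trb_qq (hP : ∀ p ∈ P, p.Prime) (p0 : ↥P) (D E : Cfg P n) :
    qq (trbF p0 D E) = Nat.lcm (Nat.lcm (qq D) (qq E)) p0 := by
  apply Nat.dvd_antisymm
  · unfold qq
    apply Finset.prod_dvd_of_isRelPrime (trb_cop hP (trbF p0 D E))
    intro p _
    split_ifs with h
    · rcases (trb_isSome p0 D E p).1 h with h1 | h1 | h1
      · rw [h1]; exact Nat.dvd_lcm_right _ _
      · refine dvd_trans ?_ ((Nat.dvd_lcm_left _ _).trans (Nat.dvd_lcm_left _ _))
        have := Finset.dvd_prod_of_mem (fun p : ↥P => if (D p).isSome then (p : ℕ) else 1) (mem_univ p)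
        simpa [h1] using this
      · refine dvd_trans ?_ ((Nat.dvd_lcm_right _ _).trans (Nat.dvd_lcm_left _ _))
        have := Finset.dvd_prod_of_mem (fun p : ↥P => if (E p).isSome then (p : ℕ) else 1) (mem_univ p)
        simpa [h1] using this
    · exact one_dvd _
  · apply Nat.lcm_dvd (Nat.lcm_dvd _ _) _
    · apply Finset.prod_dvd_prod_of_dvd
      intro p _
      by_cases h1 : (D p).isSome
      · rw [if_pos h1, if_pos ((trb_isSome p0 D E p).2 (Or.inr (Or.inl h1)))]
      · rw [if_neg h1]; exact one_dvd _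
    · apply Finset.prod_dvd_prod_of_dvd
      intro p _
      by_cases h1 : (E p).isSome
      · rw [if_pos h1, if_pos ((trb_isSome p0 D E p).2 (Or.inr (Or.inr h1)))]
      · rw [if_neg h1]; exact one_dvd _
    · have := Finset.dvd_prod_of_mem
        (fun p : ↥P => if (trbF p0 D E p).isSome then (p : ℕ) else 1) (mem_univ p0)
      rw [if_pos ((trb_isSome p0 D E p0).2 (Or.inl rfl))] at this
      exact this

private theorem trb_tot (hP : ∀ p ∈ P, p.Prime) (F : Cfg P n) :
    (qq F).totient = ∏ p : ↥P, if (F p).isSome then (p : ℕ) - 1 else 1 := by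
  unfold qq
  have key : ∀ s : Finset ↥P, (∏ p ∈ s, if (F p).isSome then (p : ℕ) else 1).totient =
      ∏ p ∈ s, if (F p).isSome then (p : ℕ) - 1 else 1 := by
    intro s
    induction s using Finset.induction_on with
    | empty => simp
    | insert a s ha ih =>
      rw [Finset.prod_insert ha, Finset.prod_insert ha, Nat.totient_mul, ih]
      · congr 1
        split_ifs
        · exact Nat.totient_prime (hP a a.2)
        · simp
      · apply Nat.Coprime.prod_right
        intro q hq
        have hne : a ≠ q := fun h => ha (h ▸ hq)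
        have := trb_cop hP F (mem_coe.2 (mem_univ a)) (mem_coe.2 (mem_univ q)) hne
        simp only [Function.onFun] at this
        rw [← Nat.coprime_iff_isRelPrime] at this
        exact this
  exact key univ

private theorem trb_prod (k : Fin n) (p0 : ↥P) (D E : Cfg P n) (h : trbC p0 D E)
    (hA : Avoid k.succ (trbF p0 D E)) :
    ∏ p : ↥P, wKB k.succ (p0 : ℕ) (p : ℕ) (D p) (E p) =
      ∏ p : ↥P, if (trbF p0 D E p).isSome then 1 / (((p : ℕ) : ℝ) - 1) else 1 := by
  obtain ⟨h1, h2, h3⟩ := h
  apply Finset.prod_congr rfl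
  intro p _
  by_cases hp : p = p0
  · subst hp
    have hD : D p = none ∨ D p = some 0 := by
      rcases hD : D p with _ | d
      · exact Or.inl rfl
      · exact Or.inr (by rw [h2 d hD])
    have hE : E p = none ∨ E p = some 0 := by
      rcases hE : E p with _ | d
      · exact Or.inl rfl
      · exact Or.inr (by rw [h3 d hE])
    simp [wKB, wB, hD, hE, trbF]
  · have hpn : ((p : ℕ) = (p0 : ℕ)) ↔ False := by
      simp only [iff_false]; exact fun h => hp (Subtype.ext h)
    have hAp := hA p
    unfold wKB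
    rw [if_neg (fun h => hp (Subtype.ext h))]
    rcases hD : D p with _ | d
    · rcases hE : E p with _ | e
      · simp [trbF, hp, hD, hE, wK]
      · have : e ≠ k.succ := by
          intro he
          apply hAp
          simp [trbF, hp, hD, hE, he]
        simp [trbF, hp, hD, hE, wK, this]
    · have hd : d ≠ k.succ := by
        intro he
        apply hAp
        simp [trbF, hp, hD, he]
      rcases hE : E p with _ | e
      · simp [trbF, hp, hD, hE, wK, hd]
      · have hde := h1 p d e hD hE
        subst hde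
        simp [trbF, hp, hD, hE, wK, hd]

private theorem trb_prod0 (k : Fin n) (p0 : ↥P) (D E : Cfg P n)
    (h : ¬ (trbC p0 D E ∧ Avoid k.succ (trbF p0 D E))) :
    ∏ p : ↥P, wKB k.succ (p0 : ℕ) (p : ℕ) (D p) (E p) = 0 := by
  by_contra hne
  rw [← ne_eq, Finset.prod_ne_zero_iff] at hne
  have h0 := hne p0 (mem_univ _)
  unfold wKB at h0
  rw [if_pos rfl] at h0
  unfold wB at h0
  have h00 : (D p0 = none ∨ D p0 = some 0) ∧ (E p0 = none ∨ E p0 = some 0) := by
    by_contra hh
    rw [if_neg hh] at h0
    exact h0 rfl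
  have hrest : ∀ p, p ≠ p0 → wK k.succ (p : ℕ) (D p) (E p) ≠ 0 := by
    intro p hp
    have := hne p (mem_univ _)
    unfold wKB at this
    rwa [if_neg (fun h => hp (Subtype.ext h))] at this
  have hC : trbC p0 D E := by
    refine ⟨?_, ?_, ?_⟩
    · intro p a b ha hb
      by_cases hp : p = p0
      · subst hp
        obtain ⟨u, v⟩ := h00
        rw [ha] at u
        rw [hb] at v
        simp at u v
        rw [u, v]
      · have := hrest p hp
        rw [ha, hb] at this
        by_contra hab
        apply this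
        simp [wK, hab]
    · intro a ha
      have := h00.1
      rw [ha] at this
      simpa using this
    · intro a ha
      have := h00.2
      rw [ha] at this
      simpa using this
  apply h
  refine ⟨hC, ?_⟩
  intro p hpk
  by_cases hp : p = p0
  · subst hp
    simp [trbF] at hpk
    exact absurd hpk (Fin.succ_ne_zero k).symm
  · have h5 := hrest p hp
    simp only [trbF, hp, if_false] at hpk
    rcases hD : D p with _ | d
    · rw [hD] at hpk
      simp at hpk
      rw [hD, hpk] at h5
      apply h5
      simp [wK]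
    · rw [hD] at hpk
      simp at hpk
      rw [hD, hpk] at h5
      apply h5
      rcases hE : E p with _ | e
      · simp [wK]
      · simp [wK]

end trb

private theorem trb_PP (W : ℕ) (Y : ℝ) : ∀ p ∈ PP W Y, p.Prime := by
  intro p hp
  unfold PP at hp
  exact (mem_filter.1 hp).2.1

private theorem trb_ndvd (W : ℕ) (Y : ℝ) : ∀ p ∈ PP W Y, ¬ p ∣ W := by
  intro p hp
  unfold PP at hp
  exact (mem_filter.1 hp).2.2

open Classical in
private theorem trb_local (hK : S_CLSK) (hX : S_EXC) (n w0 : ℕ) (c : Fin n → ℕ) (W b : ℕ)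
    (hT : TupleOK n w0 c W b) (Y x : ℝ) (D E : Cfg (PP W Y) n) (k : Fin n) (p0 : ↥(PP W Y))
    (hx : 1 ≤ x) (hY : 8 * Y < x) :
    |∑ t ∈ (TT W b x).filter (fun t => (p0 : ℕ) ∣ t ∧ Dv c D t ∧ Dv c E t),
        wt x t * th (hh c k.succ t) -
      TH (c k) x / (c k * W).totient * ∏ p : ↥(PP W Y), wKB k.succ (p0 : ℕ) (p : ℕ) (D p) (E p)| ≤
      Emax (c k) x (c k * W * Nat.lcm (Nat.lcm (qq D) (qq E)) p0) := by
  have hP := trb_PP W Y
  by_cases hC : trbC p0 D E
  · rw [← trb_qq hP p0 D E]
    have e1 : (TT W b x).filter (fun t => (p0 : ℕ) ∣ t ∧ Dv c D t ∧ Dv c E t) =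
        (TT W b x).filter (fun t => Dv c (trbF p0 D E) t) := by
      apply Finset.filter_congr
      intro t _
      rw [trb_dv c p0 D E hC t]
    rw [e1]
    obtain ⟨g1, g2⟩ := hK n w0 c W b hT Y x (trbF p0 D E) k hx hY
    by_cases hA : Avoid k.succ (trbF p0 D E)
    · rw [trb_prod k p0 D E hC hA]
      have h2 : (c k * W * qq (trbF p0 D E)).totient =
          (c k * W).totient * (qq (trbF p0 D E)).totient := by
        apply Nat.totient_mul
        unfold qq
        apply Nat.Coprime.prod_right
        intro p _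
        split_ifs
        · apply Nat.Coprime.symm
          rw [Nat.Prime.coprime_iff_not_dvd (hP p p.2)]
          intro hd
          rcases (hP p p.2).dvd_mul.1 hd with h | h
          · exact trb_ndvd W Y p p.2 (hT.cW k p (hP p p.2) h)
          · exact trb_ndvd W Y p p.2 h
        · simp
      have h3 : (((qq (trbF p0 D E)).totient : ℕ) : ℝ) =
          ∏ p : ↥(PP W Y), if (trbF p0 D E p).isSome then (((p : ℕ) : ℝ) - 1) else 1 := by
        rw [trb_tot hP, Nat.cast_prod]
        apply Finset.prod_congr rfl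
        intro p _
        split_ifs
        · rw [Nat.cast_sub (hP p p.2).one_lt.le]; simp
        · simp
      have h4 : (∏ p : ↥(PP W Y), if (trbF p0 D E p).isSome then 1 / (((p : ℕ) : ℝ) - 1) else 1) =
          1 / (((qq (trbF p0 D E)).totient : ℕ) : ℝ) := by
        rw [h3, one_div, ← Finset.prod_inv_distrib]
        apply Finset.prod_congr rfl
        intro p _
        split_ifs
        · simp
        · simp
      have h5 : TH (c k) x / (c k * W).totient * (∏ p : ↥(PP W Y), if (trbF p0 D E p).isSome then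
          1 / (((p : ℕ) : ℝ) - 1) else 1) = TH (c k) x / (c k * W * qq (trbF p0 D E)).totient := by
        rw [h4, h2, Nat.cast_mul, mul_one_div, div_div]
      rw [h5]
      exact g1 hA
    · rw [trb_prod0 k p0 D E (fun h => hA h.2), g2 hA]
      simp only [mul_zero, sub_zero, abs_zero]
      exact Emax_nonneg _ _ _
  · rw [trb_prod0 k p0 D E (fun h => hC h.1)]
    have e1 : (TT W b x).filter (fun t => (p0 : ℕ) ∣ t ∧ Dv c D t ∧ Dv c E t) = ∅ := by
      apply Finset.filter_eq_empty_iff.2
      rintro t _ ⟨h0, hD, hE⟩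
      apply hC
      have key : ∀ (p : ↥(PP W Y)) (a b : Fin (n + 1)), (p : ℕ) ∣ hh c a t → (p : ℕ) ∣ hh c b t →
          a = b := by
        intro p a b' ha hb
        obtain ⟨r, hr1, hr2⟩ := hX n w0 c W b hT p (hP p p.2) (trb_ndvd W Y p p.2) a
        by_contra hab
        exact hr2 b' (fun h => hab h.symm) t ((hr1 t).1 ha) hb
      refine ⟨?_, ?_, ?_⟩
      · intro p a b' ha hb
        exact key p a b' (hD p a ha) (hE p b' hb)
      · intro a ha
        exact key p0 a 0 (hD p0 a ha) h0
      · intro a ha
        exact key p0 a 0 (hE p0 a ha) h0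
    rw [e1]
    simp only [sum_empty, mul_zero, sub_zero, abs_zero]
    exact Emax_nonneg _ _ _

theorem TRB (hK : S_CLSK) (hX : S_EXC) : S_TRB := by
  classical
  intro n w0 c W b hT Y x l k p0 hx hY
  have e1 : ∑ t ∈ (TT W b x).filter (fun t => (p0 : ℕ) ∣ t),
      wt x t * th (hh c k.succ t) * (ff c l t) ^ 2 =
      ∑ D, ∑ E, l D * l E * ∑ t ∈ (TT W b x).filter
        (fun t => (p0 : ℕ) ∣ t ∧ Dv c D t ∧ Dv c E t), wt x t * th (hh c k.succ t) := by
    have e2 : ∀ t, wt x t * th (hh c k.succ t) * (ff c l t) ^ 2 =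
        ∑ D, ∑ E, l D * l E * (if Dv c D t ∧ Dv c E t then wt x t * th (hh c k.succ t) else 0) := by
      intro t
      unfold ff
      rw [sq, Finset.sum_mul_sum, Finset.mul_sum]
      apply Finset.sum_congr rfl
      intro D _
      rw [Finset.mul_sum]
      apply Finset.sum_congr rfl
      intro E _
      by_cases h1 : Dv c D t
      · by_cases h2 : Dv c E t
        · simp only [h1, h2, if_true, and_self]; ring
        · simp [h2]
      · simp [h1]
    rw [Finset.sum_congr rfl (fun t _ => e2 t), Finset.sum_comm]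
    apply Finset.sum_congr rfl
    intro D _
    rw [Finset.sum_comm]
    apply Finset.sum_congr rfl
    intro E _
    rw [← Finset.mul_sum]
    congr 1
    rw [← Finset.sum_filter, Finset.filter_filter]
  rw [e1]
  unfold qform
  rw [Finset.mul_sum, ← Finset.sum_sub_distrib]
  refine (Finset.abs_sum_le_sum_abs _ _).trans (Finset.sum_le_sum fun D _ => ?_)
  rw [Finset.mul_sum, ← Finset.sum_sub_distrib]
  refine (Finset.abs_sum_le_sum_abs _ _).trans (Finset.sum_le_sum fun E _ => ?_)
  have h1 := trb_local hK hX n w0 c W b hT Y x D E k p0 hx hY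
  rw [show l D * l E * (∑ t ∈ (TT W b x).filter (fun t => (p0 : ℕ) ∣ t ∧ Dv c D t ∧ Dv c E t),
      wt x t * th (hh c k.succ t)) - TH (c k) x / (c k * W).totient * (l D * l E *
        ∏ p : ↥(PP W Y), wKB k.succ (p0 : ℕ) (p : ℕ) (D p) (E p)) = l D * l E *
      (∑ t ∈ (TT W b x).filter (fun t => (p0 : ℕ) ∣ t ∧ Dv c D t ∧ Dv c E t),
        wt x t * th (hh c k.succ t) - TH (c k) x / (c k * W).totient *
        ∏ p : ↥(PP W Y), wKB k.succ (p0 : ℕ) (p : ℕ) (D p) (E p)) by ring]
  rw [abs_mul, abs_mul]
  exact mul_le_mul_of_nonneg_left h1 (by positivity)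

end MTA
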